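import Mathlib
import Pool.Agent.H462R2.AP3
import Pool.Agent.H762R2.RtD
import Pool.Agent.W751.CD.Stm

/-!
# Multiples `a * R` of a rational map: definitions and statements of the parts

Project RD (MP_8f2e1c_an).
-/

set_option autoImplicit false

open Polynomial Filter Topology MeasureTheory

namespace Pool.Agent.W751.RD

open Pool.Agent.W751.CD

/-- the polynomial with constant term one and roots `1 / z i` -/
noncomputable def Pr {N : ℕ} (z : Fin N → ℂ) (x : ℂ) : ℂ := ∏ i, (1 - z i * x)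

/-- the rational function `∏ (w - z i) / ∏ (w - p i)` -/
noncomputable def R {N : ℕ} (z p : Fin N → ℂ) (w : ℂ) : ℂ := (P z).eval w / (P p).eval w

/-- off the window: small or large -/
def Off (s t : ℝ) (v : ℂ) : Prop := ‖v‖ < s / 4 ∨ 4 / t < ‖v‖

/-- (C2M) The union bound with a threshold, measurable version. -/
def S_C2M : Prop :=
  S_NU → ∀ (f : ℂ → ℝ), Measurable f → (∀ u, 0 ≤ f u) → ∀ s₁ R₁ : ℝ, 0 < s₁ → s₁ < R₁ →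
    ∀ (J : Finset ℂ), (∀ b ∈ J, b ≠ 0) → ∀ n : ℕ, 1 ≤ n → J.card ≤ n →
    nu (⋃ b ∈ J, {a : ℂ | s₁ ≤ ‖a * b‖ ∧ ‖a * b‖ ≤ R₁ ∧
        s₁ ≤ ‖a‖ * f (a * b) ∧ ‖a‖ * f (a * b) ≤ R₁}) ≤
      ENNReal.ofReal (4 * Real.sqrt 3 * Real.pi * Real.log (R₁ / s₁) * Real.sqrt n)

/-- (RDYN) The dynamics: two trapping discs, around zero and around infinity. -/
def S_RDYN : Prop :=
  ∀ (N : ℕ), 1 ≤ N → ∀ (z p : Fin N → ℂ) (a : ℂ) (s t : ℝ), a ≠ 0 → 0 < s → 0 < t → s < 1 / t →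
    (∀ i j, z i ≠ p j) →
    (∀ w : ℂ, ‖w‖ ≤ s → (P p).eval w ≠ 0 ∧ Off s t (a * R z p w)) →
    (∀ x : ℂ, ‖x‖ ≤ t → Pr p x ≠ 0 ∧ Off s t (a * (Pr z x / Pr p x))) →
    (∀ c : ℂ, (P p).eval c ≠ 0 → (P z).eval c ≠ 0 →
      (Pool.Agent.H762R2.Rt.wro (P z) (P p)).eval c = 0 → ¬ Off s t (a * R z p c) →
      (P p).eval (a * R z p c) = 0 ∨ Off s t (a * R z p (a * R z p c))) →
    Pool.Agent.H762R2.Rt.Hyp (C a * P z) (P p)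

/-- (RFIB) The family `a * R`. -/
def S_RFIB : Prop :=
  S_NU → S_C2M → S_RDYN →
  ∀ (N : ℕ), 2 ≤ N → ∀ (z p : Fin N → ℂ) (L : ℝ), (∀ i, z i ≠ 0) → (∀ i, p i ≠ 0) →
    (∀ i j, z i ≠ p j) → (∀ i j, ‖z i‖ ≤ L * ‖z j‖ ∧ ‖z i‖ ≤ L * ‖p j‖ ∧ ‖p i‖ ≤ L * ‖z j‖ ∧
      ‖p i‖ ≤ L * ‖p j‖) →
    nu {a : ℂ | ¬ Pool.Agent.H762R2.Rt.Hyp (C a * P z) (P p)} ≤
      ENNReal.ofReal (420 * Real.sqrt N * Real.log (N * L))

end Pool.Agent.W751.RD
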